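import Pool.Agent.N167.SG.Stm
import Pool.Agent.N769.TR.Gal
import Pool.Agent.N247.TR_Gen
import Pool.Agent.N415.DY.Bar

/-!
# SG/2: Galerkin solutions on a tree with the energy bound, no sign condition (for helper167)

The algebra is that of `Pool/Agent/N769/TR/Gal.lean`.
-/

set_option autoImplicit false

namespace Pool.Agent.N222.SG

open Set Pool.Agent.N167.TR Pool.Agent.N769.TR Pool.Agent.N167.SG

theorem t_gal2 : S_gal2 := by
  have hg : S_gen := Pool.Agent.N247.TR.main
  intro hcl M B D ν f x E G N T hB hD hν hT hf hxE hfG hGE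
  have h00 : (0 : ℝ) ∈ Icc (0 : ℝ) T := ⟨le_rfl, hT.le⟩
  have hG0 : 0 ≤ G := (Finset.sum_nonneg fun n _ => gen_nonneg hg n fun j _ => sq_nonneg _).trans
    (hfG 0 h00)
  have hE0 : 0 < E := by
    by_contra hcon
    push Not at hcon
    have h1 : ν ^ 2 * E ≤ 0 := mul_nonpos_of_nonneg_of_nonpos (sq_nonneg _) hcon
    linarith
  obtain ⟨X, hX0, hXi, hXd⟩ := hcl M B D ν f x (Real.sqrt E) N T hT (Real.sqrt_nonneg E) hf
  -- inactive clamps
  have hina : ∀ t ∈ Icc (0 : ℝ) T,
      ∑ n ∈ Finset.range (N + 1), gen n (fun j => X j t ^ 2) ≤ E →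
      (fun m => clamp2 (Real.sqrt E) (X m t)) = fun m => X m t := by
    intro t ht hle
    funext j
    have h1 : |X j t| ≤ Real.sqrt E := by
      rcases le_or_gt j.length N with hn | hn
      · apply Real.abs_le_sqrt
        have h2 : X j t ^ 2 ≤ gen j.length (fun j => X j t ^ 2) :=
          le_gen hg j.length (g := fun j => X j t ^ 2) (fun i => sq_nonneg _) rfl
        have h3 : gen j.length (fun j => X j t ^ 2) ≤
            ∑ n ∈ Finset.range (N + 1), gen n (fun j => X j t ^ 2) :=
          Finset.single_le_sum (f := fun n => gen n (fun j => X j t ^ 2))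
            (fun n _ => gen_nonneg hg n fun j _ => sq_nonneg _)
            (Finset.mem_range.2 (Nat.lt_succ_of_le hn))
        linarith
      · rw [hX0 j hn t, abs_zero]
        exact Real.sqrt_nonneg _
    obtain ⟨h2, h3⟩ := abs_le.1 h1
    unfold clamp2
    rw [min_eq_left h3, max_eq_right h2]
  -- the energy
  have hed : ∀ t ∈ Icc (0 : ℝ) T, HasDerivWithinAt
      (fun s => E - ∑ n ∈ Finset.range (N + 1), gen n (fun j => X j s ^ 2))
      (-∑ n ∈ Finset.range (N + 1), gen n (fun j => 2 * (X j t *
        rhs B D ν (fun m => f m t) (fun m => clamp2 (Real.sqrt E) (X m t)) j))) (Icc 0 T) t := by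
    intro t ht
    refine HasDerivWithinAt.const_sub _ ?_
    have h1 : ∀ n ∈ Finset.range (N + 1), HasDerivWithinAt
        (fun s => gen n (fun j => X j s ^ 2)) (gen n (fun j => 2 * (X j t *
          rhs B D ν (fun m => f m t) (fun m => clamp2 (Real.sqrt E) (X m t)) j))) (Icc 0 T) t := by
      intro n hn
      have hn' : n ≤ N := Nat.lt_succ_iff.1 (Finset.mem_range.1 hn)
      refine (hg M).2.2.2.2.2.1 n (fun j s => X j s ^ 2) (fun j s => 2 * (X j s *
          rhs B D ν (fun m => f m s) (fun m => clamp2 (Real.sqrt E) (X m s)) j)) (Icc 0 T) t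
          fun j hj => ?_
      have h2 := (hXd j (by omega) t ht).pow 2
      refine h2.congr_deriv ?_
      push_cast
      ring
    exact HasDerivWithinAt.fun_sum h1
  have hbar := N415.DY.t_barrier Unit T
    (fun _ s => E - ∑ n ∈ Finset.range (N + 1), gen n (fun j => X j s ^ 2))
    (fun _ t => -∑ n ∈ Finset.range (N + 1), gen n (fun j => 2 * (X j t *
        rhs B D ν (fun m => f m t) (fun m => clamp2 (Real.sqrt E) (X m t)) j))) hT.le
    (fun _ t ht => hed t ht)
    (by
      intro _
      have h1 : ∑ n ∈ Finset.range (N + 1), gen n (fun j => X j 0 ^ 2) =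
          ∑ n ∈ Finset.range (N + 1), gen n (fun j => x j ^ 2) := by
        refine Finset.sum_congr rfl fun n hn => gen_congr hg n fun j hj => ?_
        have hn' : n ≤ N := Nat.lt_succ_iff.1 (Finset.mem_range.1 hn)
        rw [hXi j (by omega)]
      have h2 : 0 ≤ E - ∑ n ∈ Finset.range (N + 1), gen n (fun j => X j 0 ^ 2) := by
        rw [h1]
        linarith
      exact h2)
    (by
      intro _ t ht _ hz
      have hz' : E - ∑ n ∈ Finset.range (N + 1), gen n (fun j => X j t ^ 2) = 0 := hz
      have htI : t ∈ Icc (0 : ℝ) T := ⟨ht.1, ht.2.le⟩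
      have h1 := hina t htI (by linarith)
      rw [h1]
      have h2 : ∑ n ∈ Finset.range (N + 1), gen n (fun j => 2 * (X j t *
          rhs B D ν (fun m => f m t) (fun m => X m t) j)) =
          2 * ∑ n ∈ Finset.range (N + 1), gen n (fun j => X j t *
          rhs B D ν (fun m => f m t) (fun m => X m t) j) := by
        rw [Finset.mul_sum]
        exact Finset.sum_congr rfl fun n _ => gen_mul hg n 2 _
      have h3 := energy_neg hg (B := B) (X := fun m => X m t) (f := fun m => f m t) hD hν
        (fun j hj => hX0 j hj t) (by linarith) (hfG t htI) hGE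
      rw [h2]
      linarith)
  have hle : ∀ t ∈ Icc (0 : ℝ) T,
      ∑ n ∈ Finset.range (N + 1), gen n (fun j => X j t ^ 2) ≤ E := by
    intro t ht
    have h1 : 0 ≤ E - ∑ n ∈ Finset.range (N + 1), gen n (fun j => X j t ^ 2) := hbar () t ht
    linarith
  refine ⟨X, hX0, hXi, fun j hj t ht => ?_, hle⟩
  have h1 := hXd j hj t ht
  rw [hina t ht (hle t ht)] at h1
  exact h1

end Pool.Agent.N222.SG
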