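import Pool.Agent.N167.SG.Stm
import Pool.Agent.N415.DY.Bar

/-!
# SG/4: lower bounds for the Galerkin solutions on the generations `≥ n₀` (for helper167)
-/

set_option autoImplicit false

namespace Pool.Agent.N222.SG

open Set Pool.Agent.N167.TR Pool.Agent.N167.SG

theorem t_neg : S_neg := by
  intro M B D ν f F m n₀ N T X hB hD hν hT hm hF hc hf hX hX0 hXi
  have key : ∀ k : ℕ, ∀ j : List (Fin M), j.length + k = N + 1 → n₀ ≤ j.length →
      ∀ t ∈ Icc (0 : ℝ) T, - m j.length ≤ X j t := by
    intro k
    induction k with
    | zero =>
      intro j hj _ t _
      rw [hX0 j (by omega) t]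
      linarith [hm j.length]
    | succ k ih =>
      intro j hj hn t ht
      have hjN : j.length ≤ N := by omega
      set n := j.length with hnd
      have hch : ∀ i : Fin M, ∀ s ∈ Icc (0 : ℝ) T, - m (n + 1) ≤ X (i :: j) s := by
        intro i s hs
        have := ih (i :: j) (by rw [List.length_cons]; omega) (by rw [List.length_cons]; omega) s hs
        rwa [List.length_cons] at this
      have h1 := N415.DY.t_scalar T (m n) (fun s => - X j s)
        (fun s => - rhs B D ν (fun i => f i s) (fun i => X i s) j) hT
        (fun s hs => (hX j hjN s hs).neg) (by
          have := hXi j hjN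
          show - X j 0 ≤ m n
          linarith)
        (by
          intro s hs hlt
          have hlt' : m n < - X j s := hlt
          obtain ⟨y, hy⟩ : ∃ y, y = - X j s := ⟨_, rfl⟩
          have hXy : X j s = - y := by rw [hy]; ring
          rw [← hy] at hlt'
          have hy0 : 0 < y := (hm n).trans_lt hlt'
          have hin : 0 ≤ inflow B (fun i => X i s) j := by
            cases j with
            | nil => simp [inflow]
            | cons k i =>
              simp only [inflow]
              exact mul_nonneg (pow_pos hB _).le (sq_nonneg _)
          have hfn := (abs_le.1 (hf j s hs)).1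
          rw [← hnd] at hfn
          have hsum : - (M * m (n + 1)) ≤ ∑ i : Fin M, X (i :: j) s := by
            calc - ((M : ℝ) * m (n + 1)) = ∑ i : Fin M, - m (n + 1) := by
                  rw [Finset.sum_const, Finset.card_univ, Fintype.card_fin, nsmul_eq_mul]
                  ring
              _ ≤ _ := Finset.sum_le_sum fun i _ => hch i s hs
          have hBn : 0 < B ^ n := pow_pos hB n
          have hcn := hc n hn
          have hFn := hF n hn
          -- the terms
          have e1 : B ^ n * y * (∑ i : Fin M, X (i :: j) s) ≥ B ^ n * y * (- (M * m (n + 1))) :=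
            mul_le_mul_of_nonneg_left hsum (by positivity)
          have e2 : (B ^ n * (M * m (n + 1))) * y ≤ (ν * D ^ n / 2) * y :=
            mul_le_mul_of_nonneg_right (by linarith) hy0.le
          have hνD : 0 < ν * D ^ n := mul_pos hν (pow_pos (by linarith) n)
          have e3 : (ν * D ^ n / 2) * m n ≤ (ν * D ^ n / 2) * y :=
            mul_le_mul_of_nonneg_left hlt'.le (by positivity)
          show - rhs B D ν (fun i => f i s) (fun i => X i s) j ≤ 0
          have e4 : rhs B D ν (fun i => f i s) (fun i => X i s) j =
              f j s + ν * D ^ n * y + inflow B (fun i => X i s) j +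
                B ^ n * y * ∑ i : Fin M, X (i :: j) s := by
            simp only [rhs, hXy]
            ring
          rw [e4]
          linarith)
        t ht
      have h2 : - X j t ≤ m n := h1
      linarith
  intro j hj t ht
  rcases le_or_gt j.length N with hn | hn
  · exact key (N + 1 - j.length) j (by omega) hj t ht
  · rw [hX0 j hn t]
    linarith [hm j.length]

end Pool.Agent.N222.SG
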